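import Pool.Agent.Helper70.BRT.Spec

/-! # The universal `Σ₁` relation through evaluation tables -/

namespace Pool.Agent.Helper70.BRT

universe u

variable {M : Type u} [PModel M] {A : ℕ → Set M}
variable {Γ Δ Θ : Type u} [Ctx M Γ] [Ctx M Δ] [Ctx M Θ]

/-! ## Projections -/

/-- First projection of a pair. -/
noncomputable def univ_p1 (z : M) : M :=
  mu fun x => (∃ y, y < z + 1 ∧ z = pair x y) ∨
    ∀ x', x' < z + 1 → ∀ y', y' < z + 1 → ¬ z = pair x' y'

/-- Second projection of a pair. -/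
noncomputable def univ_p2 (z : M) : M :=
  mu fun y => (∃ x, x < z + 1 ∧ z = pair x y) ∨
    ∀ x', x' < z + 1 → ∀ y', y' < z + 1 → ¬ z = pair x' y'

@[simp] theorem univ_p1_pair (x y : M) : univ_p1 (pair x y) = x := by
  unfold univ_p1
  refine mu_eq (Or.inl ⟨y, lt_add_one_iff'.mpr (le_pair_right x y), rfl⟩) ?_
  rintro x' hx' (⟨y', -, h⟩ | h)
  · exact hx'.ne (pair_inj h).1.symm
  · exact h x (lt_add_one_iff'.mpr (le_pair_left x y)) y
      (lt_add_one_iff'.mpr (le_pair_right x y)) rfl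

@[simp] theorem univ_p2_pair (x y : M) : univ_p2 (pair x y) = y := by
  unfold univ_p2
  refine mu_eq (Or.inl ⟨x, lt_add_one_iff'.mpr (le_pair_left x y), rfl⟩) ?_
  rintro y' hy' (⟨x', -, h⟩ | h)
  · exact hy'.ne (pair_inj h).2.symm
  · exact h x (lt_add_one_iff'.mpr (le_pair_left x y)) y
      (lt_add_one_iff'.mpr (le_pair_right x y)) rfl

theorem univ_np (hA : Coll1 A) {t : Γ → M} (ht : Rec A t) :
    RecP A (fun g => ∀ x', x' < t g + 1 → ∀ y', y' < t g + 1 → ¬ t g = pair x' y') := by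
  have h1 : Rec A (fun g => t g + 1) := ht.add (Rec.const 1)
  refine RecP.ball hA h1 (R := fun g x' => ∀ y', y' < t g + 1 → ¬ t g = pair x' y') ?_
  refine RecP.ball hA (h1.comp PMap.id.fst.rec)
    (R := fun (g : Γ × M) y' => ¬ t g.1 = pair g.2 y') ?_
  exact (RecP.eq (ht.comp PMap.id.fst.fst.rec)
    (Rec.pair PMap.id.fst.snd.rec PMap.id.snd.rec)).not

theorem univ_p1_rec (hA : Base A) : Rec A (univ_p1 : M → M) := by
  unfold univ_p1
  refine Rec.mu hA (R := fun (z : M) (x : M) => (∃ y, y < z + 1 ∧ z = pair x y) ∨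
    ∀ x', x' < z + 1 → ∀ y', y' < z + 1 → ¬ z = pair x' y') ?_ ?_
  · refine RecP.or ?_ (univ_np hA.coll PMap.id.fst.rec)
    refine RecP.bex hA.coll (t := fun g : M × M => g.1 + 1)
      (Rec.add PMap.id.fst.rec (Rec.const 1)) (R := fun (g : M × M) y => g.1 = pair g.2 y) ?_
    exact RecP.eq PMap.id.fst.fst.rec (Rec.pair PMap.id.fst.snd.rec PMap.id.snd.rec)
  · intro z
    by_cases h : ∀ x', x' < z + 1 → ∀ y', y' < z + 1 → ¬ z = pair x' y'
    · exact ⟨0, Or.inr h⟩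
    · push Not at h
      obtain ⟨x, -, y, hy, h⟩ := h
      exact ⟨x, Or.inl ⟨y, hy, h⟩⟩

theorem univ_p2_rec (hA : Base A) : Rec A (univ_p2 : M → M) := by
  unfold univ_p2
  refine Rec.mu hA (R := fun (z : M) (y : M) => (∃ x, x < z + 1 ∧ z = pair x y) ∨
    ∀ x', x' < z + 1 → ∀ y', y' < z + 1 → ¬ z = pair x' y') ?_ ?_
  · refine RecP.or ?_ (univ_np hA.coll PMap.id.fst.rec)
    refine RecP.bex hA.coll (t := fun g : M × M => g.1 + 1)
      (Rec.add PMap.id.fst.rec (Rec.const 1)) (R := fun (g : M × M) x => g.1 = pair x g.2) ?_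
    exact RecP.eq PMap.id.fst.fst.rec (Rec.pair PMap.id.snd.rec PMap.id.fst.snd.rec)
  · intro z
    by_cases h : ∀ x', x' < z + 1 → ∀ y', y' < z + 1 → ¬ z = pair x' y'
    · exact ⟨0, Or.inr h⟩
    · push Not at h
      obtain ⟨x, hx, y, -, h⟩ := h
      exact ⟨y, Or.inl ⟨x, hx, h⟩⟩

/-! ## Tables -/

/-- Tags. -/
def univ_tg (i : ℕ) : M := (i : M)

theorem univ_tg_inj {i j : ℕ} : (univ_tg i : M) = univ_tg j ↔ i = j := Nat.cast_inj

/-- `(k, w, y)` is an entry of the table `T`. -/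
def univ_In (T k w y : M) : Prop := el (pair k (pair w y)) T

/-- The answers of the oracles; the oracle number `j` is known below `n`. -/
def univ_Orc (A : ℕ → Set M) (m₀ j : ℕ) (i z n c y : M) : Prop :=
  (∃ m, m < m₀ ∧ m ≠ j ∧ i = (m : M) ∧ ((y = 1 ∧ z ∈ A m) ∨ (y = 0 ∧ z ∉ A m))) ∨
    (i = (j : M) ∧ z < n ∧ ((y = 1 ∧ el z c) ∨ (y = 0 ∧ ¬ el z c)))

/-- The entry `(k, w, y)` is justified by `T`. -/
def univ_Just (A : ℕ → Set M) (m₀ j : ℕ) (k w y T n c : M) : Prop :=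
  (k = pair (univ_tg 0) 0 ∧ w = pair y (univ_p2 w)) ∨
  (∃ i, k = pair (univ_tg 0) (i + 1) ∧ w = pair (univ_p1 w) (univ_p2 w) ∧
    univ_In T (pair (univ_tg 0) i) (univ_p2 w) y) ∨
  (k = pair (univ_tg 1) y) ∨
  (∃ y₁ y₂, univ_In T (univ_p1 (univ_p2 k)) w y₁ ∧ univ_In T (univ_p2 (univ_p2 k)) w y₂ ∧
    ((univ_p1 k = univ_tg 2 ∧ y = y₁ + y₂) ∨ (univ_p1 k = univ_tg 3 ∧ y = y₁ * y₂) ∨
      (univ_p1 k = univ_tg 4 ∧ ((y₁ < y₂ ∧ y = 1) ∨ (¬ y₁ < y₂ ∧ y = 0))))) ∨
  (univ_p1 k = univ_tg 5 ∧ ∃ z, univ_In T (univ_p2 (univ_p2 k)) w z ∧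
    univ_Orc A m₀ j (univ_p1 (univ_p2 k)) z n c y) ∨
  (univ_p1 k = univ_tg 6 ∧ ∃ z, univ_In T (univ_p1 (univ_p2 k)) w z ∧
    ((y = 1 ∧ ∀ x, x < z → univ_In T (univ_p2 (univ_p2 k)) (pair x w) 1) ∨
      (y = 0 ∧ ∃ x, x < z ∧ univ_In T (univ_p2 (univ_p2 k)) (pair x w) 0)))

/-- Locally correct tables. -/
def univ_Loc (A : ℕ → Set M) (m₀ j : ℕ) (T n c : M) : Prop :=
  ∀ e, el e T → univ_Just A m₀ j (univ_p1 e) (univ_p1 (univ_p2 e)) (univ_p2 (univ_p2 e)) T n c

theorem univ_Loc.just {m₀ j : ℕ} {T n c k w y : M} (h : univ_Loc A m₀ j T n c)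
    (h1 : univ_In T k w y) : univ_Just A m₀ j k w y T n c := by
  have := h _ h1
  simpa only [univ_p1_pair, univ_p2_pair] using this

theorem univ_Orc.mono {m₀ j : ℕ} {i z n c n' c' y : M} (h : univ_Orc A m₀ j i z n c y)
    (hn : n ≤ n') (hc : ∀ x, x < n → (el x c ↔ el x c')) : univ_Orc A m₀ j i z n' c' y := by
  rcases h with h | ⟨h1, h2, h3⟩
  · exact Or.inl h
  · refine Or.inr ⟨h1, h2.trans_le hn, ?_⟩
    rwa [← hc z h2]

theorem univ_Just.mono {m₀ j : ℕ} {k w y T n c T' n' c' : M}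
    (h : univ_Just A m₀ j k w y T n c) (hT : ∀ e, el e T → el e T') (hn : n ≤ n')
    (hc : ∀ x, x < n → (el x c ↔ el x c')) : univ_Just A m₀ j k w y T' n' c' := by
  have hI : ∀ k w y, univ_In T k w y → univ_In T' k w y := fun k w y h => hT _ h
  rcases h with h | ⟨i, h1, h2, h3⟩ | h | ⟨y₁, y₂, h1, h2, h3⟩ | ⟨h1, z, h2, h3⟩ |
      ⟨h1, z, h2, h3⟩
  · exact Or.inl h
  · exact Or.inr (Or.inl ⟨i, h1, h2, hI _ _ _ h3⟩)
  · exact Or.inr (Or.inr (Or.inl h))
  · exact Or.inr (Or.inr (Or.inr (Or.inl ⟨y₁, y₂, hI _ _ _ h1, hI _ _ _ h2, h3⟩)))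
  · exact Or.inr (Or.inr (Or.inr (Or.inr (Or.inl ⟨h1, z, hI _ _ _ h2, h3.mono hn hc⟩))))
  · refine Or.inr (Or.inr (Or.inr (Or.inr (Or.inr ⟨h1, z, hI _ _ _ h2, ?_⟩))))
    rcases h3 with ⟨h3, h4⟩ | ⟨h3, x, h4, h5⟩
    · exact Or.inl ⟨h3, fun x hx => hI _ _ _ (h4 x hx)⟩
    · exact Or.inr ⟨h3, x, h4, hI _ _ _ h5⟩

theorem univ_Loc.mono {m₀ j : ℕ} {T n c n' c' : M} (h : univ_Loc A m₀ j T n c) (hn : n ≤ n')
    (hc : ∀ x, x < n → (el x c ↔ el x c')) : univ_Loc A m₀ j T n' c' :=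
  fun e he => (h e he).mono (fun _ h => h) hn hc

/-! ## Definability -/

section

variable {bd : M → M}

theorem univ_el_rec (hC : CodAPI M bd) {x c : Γ → M} (hx : Rec A x) (hc : Rec A c) :
    RecP A (fun g => el (x g) (c g)) :=
  RecP.comp (R := fun z : M × M => el z.1 z.2) (hC.el_rec.of_pure A) (hx.prodMk hc)

theorem univ_In_rec (hC : CodAPI M bd) {T k w y : Γ → M} (hT : Rec A T) (hk : Rec A k)
    (hw : Rec A w) (hy : Rec A y) : RecP A (fun g => univ_In (T g) (k g) (w g) (y g)) :=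
  univ_el_rec hC (hk.pair (hw.pair hy)) hT

theorem univ_In_lt (hC : CodAPI M bd) {T k w y : M} (h : univ_In T k w y) : y < T :=
  ((le_pair_right w y).trans (le_pair_right k _)).trans_lt (hC.el_lt _ _ h)

theorem univ_std {R : ℕ → Γ → Prop} (h : ∀ m, RecP A (R m)) (m₀ : ℕ) :
    RecP A (fun g => ∃ m, m < m₀ ∧ R m g) := by
  induction m₀ with
  | zero =>
    refine (RecP.const False).congr fun g => ?_
    simp
  | succ m₀ ih =>
    refine (ih.or (h m₀)).congr fun g => ?_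
    constructor
    · rintro ⟨m, hm, h⟩
      rcases Nat.lt_succ_iff_lt_or_eq.mp hm with h1 | rfl
      · exact Or.inl ⟨m, h1, h⟩
      · exact Or.inr h
    · rintro (⟨m, hm, h⟩ | h)
      · exact ⟨m, Nat.lt_succ_of_lt hm, h⟩
      · exact ⟨m₀, Nat.lt_succ_self _, h⟩

theorem univ_Orc_rec (hC : CodAPI M bd) (m₀ j : ℕ) {i z n c y : Γ → M} (hi : Rec A i)
    (hz : Rec A z) (hn : Rec A n) (hc : Rec A c) (hy : Rec A y) :
    RecP A (fun g => univ_Orc A m₀ j (i g) (z g) (n g) (c g) (y g)) := by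
  unfold univ_Orc
  refine RecP.or ?_ ?_
  · refine univ_std (R := fun m g => m ≠ j ∧ i g = (m : M) ∧
      ((y g = 1 ∧ z g ∈ A m) ∨ (y g = 0 ∧ z g ∉ A m))) (fun m => ?_) m₀
    exact (RecP.const _).and ((RecP.eq hi (Rec.const _)).and
      (((RecP.eq hy (Rec.const 1)).and (RecP.mem m hz)).or
        ((RecP.eq hy (Rec.const 0)).and (RecP.mem m hz).not)))
  · exact (RecP.eq hi (Rec.const _)).and ((RecP.lt hz hn).and
      (((RecP.eq hy (Rec.const 1)).and (univ_el_rec hC hz hc)).or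
        ((RecP.eq hy (Rec.const 0)).and (univ_el_rec hC hz hc).not)))

theorem univ_Just_rec (hC : CodAPI M bd) (hA : Base A) (m₀ j : ℕ) {k w y T n c : Γ → M}
    (hk : Rec A k) (hw : Rec A w) (hy : Rec A y) (hT : Rec A T) (hn : Rec A n) (hc : Rec A c) :
    RecP A (fun g => univ_Just A m₀ j (k g) (w g) (y g) (T g) (n g) (c g)) := by
  have p1 : ∀ {Γ : Type u} [Ctx M Γ] {f : Γ → M}, Rec A f → Rec A (fun g => univ_p1 (f g)) :=
    fun hf => (univ_p1_rec hA).comp hf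
  have p2 : ∀ {Γ : Type u} [Ctx M Γ] {f : Γ → M}, Rec A f → Rec A (fun g => univ_p2 (f g)) :=
    fun hf => (univ_p2_rec hA).comp hf
  have hw' : Rec A (fun g : Γ × M => w g.1) := hw.comp PMap.id.fst.rec
  have hk' : Rec A (fun g : Γ × M => k g.1) := hk.comp PMap.id.fst.rec
  have hy' : Rec A (fun g : Γ × M => y g.1) := hy.comp PMap.id.fst.rec
  have hT' : Rec A (fun g : Γ × M => T g.1) := hT.comp PMap.id.fst.rec
  have hn' : Rec A (fun g : Γ × M => n g.1) := hn.comp PMap.id.fst.rec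
  have hc' : Rec A (fun g : Γ × M => c g.1) := hc.comp PMap.id.fst.rec
  have hw'' : Rec A (fun g : (Γ × M) × M => w g.1.1) := hw.comp PMap.id.fst.fst.rec
  have hk'' : Rec A (fun g : (Γ × M) × M => k g.1.1) := hk.comp PMap.id.fst.fst.rec
  have hy'' : Rec A (fun g : (Γ × M) × M => y g.1.1) := hy.comp PMap.id.fst.fst.rec
  have hT'' : Rec A (fun g : (Γ × M) × M => T g.1.1) := hT.comp PMap.id.fst.fst.rec
  have l1 : Rec A (fun g : Γ × M => g.2) := PMap.id.snd.rec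
  have l2 : Rec A (fun g : (Γ × M) × M => g.2) := PMap.id.snd.rec
  have l3 : Rec A (fun g : (Γ × M) × M => g.1.2) := PMap.id.fst.snd.rec
  have c1 : RecP A (fun g => k g = pair (univ_tg 0) 0 ∧ w g = pair (y g) (univ_p2 (w g))) :=
    (RecP.eq hk (Rec.const _)).and (RecP.eq hw (hy.pair (p2 hw)))
  have c2 : RecP A (fun g => ∃ i, i < k g ∧ (k g = pair (univ_tg 0) (i + 1) ∧
      w g = pair (univ_p1 (w g)) (univ_p2 (w g)) ∧
      univ_In (T g) (pair (univ_tg 0) i) (univ_p2 (w g)) (y g))) := by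
    refine RecP.bex hA.coll hk (R := fun g i => k g = pair (univ_tg 0) (i + 1) ∧
      w g = pair (univ_p1 (w g)) (univ_p2 (w g)) ∧
      univ_In (T g) (pair (univ_tg 0) i) (univ_p2 (w g)) (y g)) ?_
    exact (RecP.eq hk' ((Rec.const _).pair (l1.add (Rec.const 1)))).and
      ((RecP.eq hw' ((p1 hw').pair (p2 hw'))).and
        (univ_In_rec hC hT' ((Rec.const _).pair l1) (p2 hw') hy'))
  have c3 : RecP A (fun g => k g = pair (univ_tg 1) (y g)) :=
    RecP.eq hk ((Rec.const _).pair hy)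
  have c4 : RecP A (fun g => ∃ y₁, y₁ < T g ∧ ∃ y₂, y₂ < T g ∧
      (univ_In (T g) (univ_p1 (univ_p2 (k g))) (w g) y₁ ∧
        univ_In (T g) (univ_p2 (univ_p2 (k g))) (w g) y₂ ∧
        ((univ_p1 (k g) = univ_tg 2 ∧ y g = y₁ + y₂) ∨
          (univ_p1 (k g) = univ_tg 3 ∧ y g = y₁ * y₂) ∨
          (univ_p1 (k g) = univ_tg 4 ∧ ((y₁ < y₂ ∧ y g = 1) ∨ (¬ y₁ < y₂ ∧ y g = 0)))))) := by
    refine RecP.bex hA.coll hT (R := fun g y₁ => ∃ y₂, y₂ < T g ∧
      (univ_In (T g) (univ_p1 (univ_p2 (k g))) (w g) y₁ ∧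
        univ_In (T g) (univ_p2 (univ_p2 (k g))) (w g) y₂ ∧
        ((univ_p1 (k g) = univ_tg 2 ∧ y g = y₁ + y₂) ∨
          (univ_p1 (k g) = univ_tg 3 ∧ y g = y₁ * y₂) ∨
          (univ_p1 (k g) = univ_tg 4 ∧ ((y₁ < y₂ ∧ y g = 1) ∨ (¬ y₁ < y₂ ∧ y g = 0)))))) ?_
    refine RecP.bex hA.coll hT' (R := fun (g : Γ × M) y₂ =>
      (univ_In (T g.1) (univ_p1 (univ_p2 (k g.1))) (w g.1) g.2 ∧
        univ_In (T g.1) (univ_p2 (univ_p2 (k g.1))) (w g.1) y₂ ∧
        ((univ_p1 (k g.1) = univ_tg 2 ∧ y g.1 = g.2 + y₂) ∨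
          (univ_p1 (k g.1) = univ_tg 3 ∧ y g.1 = g.2 * y₂) ∨
          (univ_p1 (k g.1) = univ_tg 4 ∧
            ((g.2 < y₂ ∧ y g.1 = 1) ∨ (¬ g.2 < y₂ ∧ y g.1 = 0)))))) ?_
    refine (univ_In_rec hC hT'' (p1 (p2 hk'')) hw'' l3).and
      ((univ_In_rec hC hT'' (p2 (p2 hk'')) hw'' l2).and ?_)
    refine RecP.or ?_ (RecP.or ?_ ?_)
    · exact (RecP.eq (p1 hk'') (Rec.const _)).and (RecP.eq hy'' (l3.add l2))
    · exact (RecP.eq (p1 hk'') (Rec.const _)).and (RecP.eq hy'' (l3.mul l2))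
    · exact (RecP.eq (p1 hk'') (Rec.const _)).and
        (((RecP.lt l3 l2).and (RecP.eq hy'' (Rec.const 1))).or
          ((RecP.lt l3 l2).not.and (RecP.eq hy'' (Rec.const 0))))
  have c5 : RecP A (fun g => univ_p1 (k g) = univ_tg 5 ∧ ∃ z, z < T g ∧
      (univ_In (T g) (univ_p2 (univ_p2 (k g))) (w g) z ∧
        univ_Orc A m₀ j (univ_p1 (univ_p2 (k g))) z (n g) (c g) (y g))) := by
    refine (RecP.eq (p1 hk) (Rec.const _)).and ?_
    refine RecP.bex hA.coll hT (R := fun g z =>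
      (univ_In (T g) (univ_p2 (univ_p2 (k g))) (w g) z ∧
        univ_Orc A m₀ j (univ_p1 (univ_p2 (k g))) z (n g) (c g) (y g))) ?_
    exact (univ_In_rec hC hT' (p2 (p2 hk')) hw' l1).and
      (univ_Orc_rec hC m₀ j (p1 (p2 hk')) l1 hn' hc' hy')
  have c6 : RecP A (fun g => univ_p1 (k g) = univ_tg 6 ∧ ∃ z, z < T g ∧
      (univ_In (T g) (univ_p1 (univ_p2 (k g))) (w g) z ∧
      ((y g = 1 ∧ ∀ x, x < z → univ_In (T g) (univ_p2 (univ_p2 (k g))) (pair x (w g)) 1) ∨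
        (y g = 0 ∧ ∃ x, x < z ∧ univ_In (T g) (univ_p2 (univ_p2 (k g))) (pair x (w g)) 0)))) := by
    refine (RecP.eq (p1 hk) (Rec.const _)).and ?_
    refine RecP.bex hA.coll hT (R := fun g z =>
      (univ_In (T g) (univ_p1 (univ_p2 (k g))) (w g) z ∧
      ((y g = 1 ∧ ∀ x, x < z → univ_In (T g) (univ_p2 (univ_p2 (k g))) (pair x (w g)) 1) ∨
        (y g = 0 ∧ ∃ x, x < z ∧
          univ_In (T g) (univ_p2 (univ_p2 (k g))) (pair x (w g)) 0)))) ?_
    refine (univ_In_rec hC hT' (p1 (p2 hk')) hw' l1).and (RecP.or ?_ ?_)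
    · refine (RecP.eq hy' (Rec.const 1)).and ?_
      refine RecP.ball hA.coll l1 (R := fun (g : Γ × M) x =>
        univ_In (T g.1) (univ_p2 (univ_p2 (k g.1))) (pair x (w g.1)) 1) ?_
      exact univ_In_rec hC hT'' (p2 (p2 hk'')) (l2.pair hw'') (Rec.const 1)
    · refine (RecP.eq hy' (Rec.const 0)).and ?_
      refine RecP.bex hA.coll l1 (R := fun (g : Γ × M) x =>
        univ_In (T g.1) (univ_p2 (univ_p2 (k g.1))) (pair x (w g.1)) 0) ?_
      exact univ_In_rec hC hT'' (p2 (p2 hk'')) (l2.pair hw'') (Rec.const 0)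
  refine (c1.or (c2.or (c3.or (c4.or (c5.or c6))))).congr fun g => ?_
  unfold univ_Just
  refine or_congr Iff.rfl (or_congr ?_ (or_congr Iff.rfl (or_congr ?_ (or_congr ?_ ?_))))
  · constructor
    · rintro ⟨i, h1, h2⟩
      refine ⟨i, ?_, h1, h2⟩
      rw [h1]
      exact (lt_add_one' i).trans_le (le_pair_right _ _)
    · rintro ⟨i, -, h⟩
      exact ⟨i, h⟩
  · constructor
    · rintro ⟨y₁, y₂, h1, h2, h3⟩
      exact ⟨y₁, univ_In_lt hC h1, y₂, univ_In_lt hC h2, h1, h2, h3⟩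
    · rintro ⟨y₁, -, y₂, -, h⟩
      exact ⟨y₁, y₂, h⟩
  · refine and_congr Iff.rfl ?_
    constructor
    · rintro ⟨z, h1, h2⟩
      exact ⟨z, univ_In_lt hC h1, h1, h2⟩
    · rintro ⟨z, -, h⟩
      exact ⟨z, h⟩
  · refine and_congr Iff.rfl ?_
    constructor
    · rintro ⟨z, h1, h2⟩
      exact ⟨z, univ_In_lt hC h1, h1, h2⟩
    · rintro ⟨z, -, h⟩
      exact ⟨z, h⟩

theorem univ_Loc_rec (hC : CodAPI M bd) (hA : Base A) (m₀ j : ℕ) {T n c : Γ → M}
    (hT : Rec A T) (hn : Rec A n) (hc : Rec A c) :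
    RecP A (fun g => univ_Loc A m₀ j (T g) (n g) (c g)) := by
  have h1 : RecP A (fun g => ∀ e, e < T g → (el e (T g) →
      univ_Just A m₀ j (univ_p1 e) (univ_p1 (univ_p2 e)) (univ_p2 (univ_p2 e))
        (T g) (n g) (c g))) := by
    refine RecP.ball hA.coll hT (R := fun g e => el e (T g) →
      univ_Just A m₀ j (univ_p1 e) (univ_p1 (univ_p2 e)) (univ_p2 (univ_p2 e))
        (T g) (n g) (c g)) ?_
    have l1 : Rec A (fun g : Γ × M => g.2) := PMap.id.snd.rec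
    have p1 : ∀ {f : Γ × M → M}, Rec A f → Rec A (fun g => univ_p1 (f g)) :=
      fun hf => (univ_p1_rec hA).comp hf
    have p2 : ∀ {f : Γ × M → M}, Rec A f → Rec A (fun g => univ_p2 (f g)) :=
      fun hf => (univ_p2_rec hA).comp hf
    have hT' : Rec A (fun g : Γ × M => T g.1) := hT.comp PMap.id.fst.rec
    have hn' : Rec A (fun g : Γ × M => n g.1) := hn.comp PMap.id.fst.rec
    have hc' : Rec A (fun g : Γ × M => c g.1) := hc.comp PMap.id.fst.rec
    exact (univ_el_rec hC l1 hT').imp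
      (univ_Just_rec hC hA m₀ j (p1 l1) (p1 (p2 l1)) (p2 (p2 l1)) hT' hn' hc')
  refine h1.congr fun g => ?_
  constructor
  · intro h e _ he
    exact h e he
  · intro h e he
    exact h e (hC.el_lt _ _ he) he

/-! ## Extension of tables -/

theorem univ_single (hC : CodAPI M bd) (hA : Base A) {m₀ j : ℕ} {T n c k w y : M}
    (hT : univ_Loc A m₀ j T n c) (h : univ_Just A m₀ j k w y T n c) :
    ∃ T', univ_Loc A m₀ j T' n c ∧ (∀ e, el e T → el e T') ∧ univ_In T' k w y := by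
  have hP : RecP A (fun e : M => el e T ∨ e = pair k (pair w y)) :=
    (univ_el_rec hC Rec.id (Rec.const T)).or (RecP.eq Rec.id (Rec.const _))
  have hm := hC.mk_spec A hA _ hP (T + pair k (pair w y) + 1)
  have h1 : ∀ e, el e (mk (T + pair k (pair w y) + 1) (fun e => el e T ∨ e = pair k (pair w y))) ↔
      el e T ∨ e = pair k (pair w y) := by
    intro e
    rw [hm]
    constructor
    · rintro ⟨-, h⟩
      exact h
    · intro h
      refine ⟨?_, h⟩
      rcases h with h | h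
      · exact (hC.el_lt _ _ h).trans_le (le_self_add.trans le_self_add)
      · rw [h]
        exact lt_add_one_iff'.mpr le_add_self
  refine ⟨_, ?_, fun e he => (h1 e).mpr (Or.inl he), (h1 _).mpr (Or.inr rfl)⟩
  intro e he
  rcases (h1 e).mp he with h2 | h2
  · exact (hT e h2).mono (fun e he => (h1 e).mpr (Or.inl he)) le_rfl fun _ _ => Iff.rfl
  · rw [h2]
    simp only [univ_p1_pair, univ_p2_pair]
    exact h.mono (fun e he => (h1 e).mpr (Or.inl he)) le_rfl fun _ _ => Iff.rfl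

/-- Union of a recursive bounded family of locally correct tables. -/
theorem univ_union (hC : CodAPI M bd) (hA : Base A) {m₀ j : ℕ} {n c : M} (B : M) :
    ∃ T', univ_Loc A m₀ j T' n c ∧
      ∀ T, T < B → univ_Loc A m₀ j T n c → ∀ e, el e T → el e T' := by
  have hP : RecP A (fun e : M => ∃ T, T < B ∧ (univ_Loc A m₀ j T n c ∧ el e T)) := by
    refine RecP.bex hA.coll (Rec.const B) (R := fun e T => univ_Loc A m₀ j T n c ∧ el e T) ?_
    exact (univ_Loc_rec hC hA m₀ j PMap.id.snd.rec (Rec.const n) (Rec.const c)).and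
      (univ_el_rec hC PMap.id.fst.rec PMap.id.snd.rec)
  have hm := hC.mk_spec A hA _ hP B
  have h1 : ∀ T, T < B → univ_Loc A m₀ j T n c → ∀ e, el e T →
      el e (mk B fun e : M => ∃ T, T < B ∧ (univ_Loc A m₀ j T n c ∧ el e T)) := by
    intro T hT hL e he
    rw [hm]
    exact ⟨(hC.el_lt _ _ he).trans hT, T, hT, hL, he⟩
  refine ⟨_, ?_, h1⟩
  intro e he
  obtain ⟨-, T, hT, hL, he⟩ := (hm e).mp he
  exact (hL e he).mono (h1 T hT hL) le_rfl fun _ _ => Iff.rfl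

theorem univ_union2 (hC : CodAPI M bd) (hA : Base A) {m₀ j : ℕ} {n c T₁ T₂ : M}
    (h1 : univ_Loc A m₀ j T₁ n c) (h2 : univ_Loc A m₀ j T₂ n c) :
    ∃ T', univ_Loc A m₀ j T' n c ∧ (∀ e, el e T₁ → el e T') ∧ (∀ e, el e T₂ → el e T') := by
  obtain ⟨T', h3, h4⟩ := univ_union hC hA (m₀ := m₀) (j := j) (n := n) (c := c) (T₁ + T₂ + 1)
  exact ⟨T', h3, h4 T₁ (lt_add_one_iff'.mpr le_self_add) h1,
    h4 T₂ (lt_add_one_iff'.mpr le_add_self) h2⟩

theorem univ_empty (hC : CodAPI M bd) (hA : Base A) {m₀ j : ℕ} {n c : M} :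
    ∃ T, univ_Loc A m₀ j T n c := by
  obtain ⟨T', h3, -⟩ := univ_union hC hA (m₀ := m₀) (j := j) (n := n) (c := c) 0
  exact ⟨T', h3⟩

end

/-! ## Soundness -/

open Classical in
/-- Truth values. -/
noncomputable def univ_tv (p : Prop) : M := if p then 1 else 0

theorem univ_tv_true {p : Prop} (h : p) : (univ_tv p : M) = 1 := if_pos h

theorem univ_tv_false {p : Prop} (h : ¬ p) : (univ_tv p : M) = 0 := if_neg h

theorem univ_tv_one {p : Prop} : (univ_tv p : M) = 1 ↔ p := by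
  constructor
  · intro h
    by_contra hp
    rw [univ_tv_false hp] at h
    exact zero_ne_one h
  · exact univ_tv_true

theorem univ_tv_zero {p : Prop} : (univ_tv p : M) = 0 ↔ ¬ p := by
  constructor
  · intro h hp
    rw [univ_tv_true hp] at h
    exact one_ne_zero h
  · exact univ_tv_false

/-- All tables give the value `y` to the code `k` in the environment `w`. -/
def univ_Snd (A : ℕ → Set M) (m₀ j : ℕ) (n c k w y : M) : Prop :=
  ∀ T, univ_Loc A m₀ j T n c → ∀ y', univ_In T k w y' → y' = y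

/-- Some table gives the value `y` to the code `k` in the environment `w`. -/
def univ_Cpl (A : ℕ → Set M) (m₀ j : ℕ) (n c k w y : M) : Prop :=
  ∃ T, univ_Loc A m₀ j T n c ∧ univ_In T k w y

/-- `w` is a code of the environment `v`. -/
def univ_Env : ℕ → M → (ℕ → M) → Prop
  | 0, w, v => w = 0 ∧ ∀ i, v i = 0
  | K + 1, w, v => ∃ w₀, w = pair (v 0) w₀ ∧ univ_Env K w₀ (fun i => v (i + 1))

theorem univ_pair_zero : (pair 0 0 : M) = 0 := by
  unfold pair
  simp

theorem univ_Env.split {K : ℕ} {w : M} {v : ℕ → M} (h : univ_Env K w v) :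
    ∃ K' w₀, w = pair (v 0) w₀ ∧ univ_Env K' w₀ (fun i => v (i + 1)) := by
  cases K with
  | zero =>
    obtain ⟨h1, h2⟩ := h
    refine ⟨0, 0, ?_, rfl, fun i => h2 (i + 1)⟩
    rw [h1, h2 0, univ_pair_zero]
  | succ K =>
    obtain ⟨w₀, h1, h2⟩ := h
    exact ⟨K, w₀, h1, h2⟩

theorem univ_Env.cons {K : ℕ} {w : M} {v : ℕ → M} (h : univ_Env K w v) (x : M) :
    univ_Env (K + 1) (pair x w) (cons x v) := ⟨w, rfl, h⟩

section

variable {m₀ j : ℕ} {n c : M}

/-- The cases of a justification according to the tag. -/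
theorem univ_Just.c0 {k w y T : M} (h : univ_Just A m₀ j (pair (univ_tg 0) k) w y T n c) :
    (k = 0 ∧ w = pair y (univ_p2 w)) ∨ (∃ i, k = i + 1 ∧ w = pair (univ_p1 w) (univ_p2 w) ∧
    univ_In T (pair (univ_tg 0) i) (univ_p2 w) y) := by
  simpa only [univ_Just, univ_p1_pair, univ_p2_pair, pair_inj_iff, univ_tg_inj, false_and,
    and_false, or_false, false_or, true_and, OfNat.zero_ne_ofNat, zero_ne_one, exists_false] using h

theorem univ_Just.c1 {k w y T : M} (h : univ_Just A m₀ j (pair (univ_tg 1) k) w y T n c) :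
    y = k := by
  simpa only [univ_Just, univ_p1_pair, univ_p2_pair, pair_inj_iff, univ_tg_inj, false_and,
    and_false, or_false, false_or, true_and, OfNat.one_ne_ofNat, one_ne_zero, exists_false,
    eq_comm, zero_ne_one] using h

theorem univ_Just.c2 {a b w y T : M}
    (h : univ_Just A m₀ j (pair (univ_tg 2) (pair a b)) w y T n c) :
    ∃ y₁ y₂, univ_In T a w y₁ ∧ univ_In T b w y₂ ∧ y = y₁ + y₂ := by
  simpa only [univ_Just, univ_p1_pair, univ_p2_pair, pair_inj_iff, univ_tg_inj, false_and,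
    and_false, or_false, false_or, true_and, OfNat.ofNat_ne_zero, OfNat.ofNat_ne_one,
    exists_false, Nat.reduceEqDiff] using h

theorem univ_Just.c3 {a b w y T : M}
    (h : univ_Just A m₀ j (pair (univ_tg 3) (pair a b)) w y T n c) :
    ∃ y₁ y₂, univ_In T a w y₁ ∧ univ_In T b w y₂ ∧ y = y₁ * y₂ := by
  simpa only [univ_Just, univ_p1_pair, univ_p2_pair, pair_inj_iff, univ_tg_inj, false_and,
    and_false, or_false, false_or, true_and, OfNat.ofNat_ne_zero, OfNat.ofNat_ne_one,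
    exists_false, Nat.reduceEqDiff] using h

theorem univ_Just.c4 {a b w y T : M}
    (h : univ_Just A m₀ j (pair (univ_tg 4) (pair a b)) w y T n c) :
    ∃ y₁ y₂, univ_In T a w y₁ ∧ univ_In T b w y₂ ∧
      ((y₁ < y₂ ∧ y = 1) ∨ (¬ y₁ < y₂ ∧ y = 0)) := by
  simpa only [univ_Just, univ_p1_pair, univ_p2_pair, pair_inj_iff, univ_tg_inj, false_and,
    and_false, or_false, false_or, true_and, OfNat.ofNat_ne_zero, OfNat.ofNat_ne_one,
    exists_false, Nat.reduceEqDiff] using h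

theorem univ_Just.c5 {a b w y T : M}
    (h : univ_Just A m₀ j (pair (univ_tg 5) (pair a b)) w y T n c) :
    ∃ z, univ_In T b w z ∧ univ_Orc A m₀ j a z n c y := by
  simpa only [univ_Just, univ_p1_pair, univ_p2_pair, pair_inj_iff, univ_tg_inj, false_and,
    and_false, or_false, false_or, true_and, OfNat.ofNat_ne_zero, OfNat.ofNat_ne_one,
    exists_false, Nat.reduceEqDiff] using h

theorem univ_Just.c6 {a b w y T : M}
    (h : univ_Just A m₀ j (pair (univ_tg 6) (pair a b)) w y T n c) :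
    ∃ z, univ_In T a w z ∧ ((y = 1 ∧ ∀ x, x < z → univ_In T b (pair x w) 1) ∨
      (y = 0 ∧ ∃ x, x < z ∧ univ_In T b (pair x w) 0)) := by
  simpa only [univ_Just, univ_p1_pair, univ_p2_pair, pair_inj_iff, univ_tg_inj, false_and,
    and_false, or_false, false_or, true_and, OfNat.ofNat_ne_zero, OfNat.ofNat_ne_one,
    exists_false, Nat.reduceEqDiff] using h

theorem univ_snd_var (i : ℕ) : ∀ {K : ℕ} {w : M} {v : ℕ → M}, univ_Env K w v →
    univ_Snd A m₀ j n c (pair (univ_tg 0) (i : M)) w (v i) := by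
  induction i with
  | zero =>
    intro K w v hv T hT y hy
    obtain ⟨K', w₀, h1, -⟩ := hv.split
    rcases (hT.just hy).c0 with ⟨-, h⟩ | ⟨i, h, -⟩
    · rw [h1] at h
      exact (pair_inj h).1.symm
    · exact absurd h.symm (by
        rw [Nat.cast_zero]
        exact (lt_of_le_of_lt zero_le (lt_add_one' i)).ne')
  | succ i ih =>
    intro K w v hv T hT y hy
    obtain ⟨K', w₀, h1, h2⟩ := hv.split
    rcases (hT.just hy).c0 with ⟨h, -⟩ | ⟨i', h, -, h4⟩
    · exact absurd h (by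
        rw [Nat.cast_succ]
        exact (lt_of_le_of_lt zero_le (lt_add_one' _)).ne')
    · rw [Nat.cast_succ] at h
      have h5 : (i : M) = i' := add_right_cancel h
      rw [h1, univ_p2_pair, ← h5] at h4
      exact ih h2 T hT y h4

theorem univ_snd_const {w : M} (x : M) : univ_Snd A m₀ j n c (pair (univ_tg 1) x) w x :=
  fun _ hT _ hy => (hT.just hy).c1

theorem univ_snd_add {a b w y₁ y₂ : M} (h1 : univ_Snd A m₀ j n c a w y₁)
    (h2 : univ_Snd A m₀ j n c b w y₂) :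
    univ_Snd A m₀ j n c (pair (univ_tg 2) (pair a b)) w (y₁ + y₂) := by
  intro T hT y hy
  obtain ⟨z₁, z₂, h3, h4, h5⟩ := (hT.just hy).c2
  rw [h5, h1 T hT _ h3, h2 T hT _ h4]

theorem univ_snd_mul {a b w y₁ y₂ : M} (h1 : univ_Snd A m₀ j n c a w y₁)
    (h2 : univ_Snd A m₀ j n c b w y₂) :
    univ_Snd A m₀ j n c (pair (univ_tg 3) (pair a b)) w (y₁ * y₂) := by
  intro T hT y hy
  obtain ⟨z₁, z₂, h3, h4, h5⟩ := (hT.just hy).c3
  rw [h5, h1 T hT _ h3, h2 T hT _ h4]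

theorem univ_snd_lt {a b w y₁ y₂ : M} (h1 : univ_Snd A m₀ j n c a w y₁)
    (h2 : univ_Snd A m₀ j n c b w y₂) :
    univ_Snd A m₀ j n c (pair (univ_tg 4) (pair a b)) w (univ_tv (y₁ < y₂)) := by
  intro T hT y hy
  obtain ⟨z₁, z₂, h3, h4, h5⟩ := (hT.just hy).c4
  rw [h1 T hT _ h3, h2 T hT _ h4] at h5
  rcases h5 with ⟨h5, h6⟩ | ⟨h5, h6⟩
  · rw [h6, univ_tv_true h5]
  · rw [h6, univ_tv_false h5]

theorem univ_snd_mem {H : Set M} (hc : ∀ x, el x c ↔ x < n ∧ x ∈ H) {i : ℕ} {b w z : M}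
    (h1 : univ_Snd A m₀ j n c b w z) :
    univ_Snd A m₀ j n c (pair (univ_tg 5) (pair (i : M) b)) w
      (univ_tv (z ∈ Function.update A j H i)) := by
  intro T hT y hy
  obtain ⟨z', h2, h3⟩ := (hT.just hy).c5
  rw [h1 T hT _ h2] at h3
  rcases h3 with ⟨m, -, hm, h4, h5⟩ | ⟨h4, h5, h6⟩
  · have h6 : i = m := Nat.cast_inj.mp h4
    rw [h6, Function.update_of_ne hm]
    rcases h5 with ⟨h7, h8⟩ | ⟨h7, h8⟩
    · rw [h7, univ_tv_true h8]
    · rw [h7, univ_tv_false h8]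
  · have h7 : i = j := Nat.cast_inj.mp h4
    rw [h7, Function.update_self]
    rcases h6 with ⟨h8, h9⟩ | ⟨h8, h9⟩
    · rw [h8, univ_tv_true ((hc z).mp h9).2]
    · rw [h8, univ_tv_false fun h => h9 ((hc z).mpr ⟨h5, h⟩)]

theorem univ_snd_ball {a b w z : M} {P : M → Prop} (h1 : univ_Snd A m₀ j n c a w z)
    (h2 : ∀ x, x < z → univ_Snd A m₀ j n c b (pair x w) (univ_tv (P x))) :
    univ_Snd A m₀ j n c (pair (univ_tg 6) (pair a b)) w (univ_tv (∀ x, x < z → P x)) := by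
  intro T hT y hy
  obtain ⟨z', h3, h4⟩ := (hT.just hy).c6
  rw [h1 T hT _ h3] at h4
  rcases h4 with ⟨h5, h6⟩ | ⟨h5, x, hx, h6⟩
  · rw [h5, univ_tv_true]
    intro x hx
    exact univ_tv_one.mp (h2 x hx T hT _ (h6 x hx)).symm
  · rw [h5, univ_tv_false]
    intro h
    exact univ_tv_zero.mp (h2 x hx T hT _ h6).symm (h x hx)

/-! ## Completeness -/

variable {bd : M → M}

theorem univ_cpl_of (hC : CodAPI M bd) (hA : Base A) {T k w y : M} (hT : univ_Loc A m₀ j T n c)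
    (h : univ_Just A m₀ j k w y T n c) : univ_Cpl A m₀ j n c k w y := by
  obtain ⟨T', h1, -, h2⟩ := univ_single hC hA hT h
  exact ⟨T', h1, h2⟩

theorem univ_cpl_var (hC : CodAPI M bd) (hA : Base A) (i : ℕ) : ∀ {K : ℕ} {w : M} {v : ℕ → M},
    univ_Env K w v → univ_Cpl A m₀ j n c (pair (univ_tg 0) (i : M)) w (v i) := by
  induction i with
  | zero =>
    intro K w v hv
    obtain ⟨K', w₀, h1, -⟩ := hv.split
    obtain ⟨T, hT⟩ := univ_empty hC hA (m₀ := m₀) (j := j) (n := n) (c := c)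
    refine univ_cpl_of hC hA hT (Or.inl ⟨?_, ?_⟩)
    · rw [Nat.cast_zero]
    · rw [h1, univ_p2_pair]
  | succ i ih =>
    intro K w v hv
    obtain ⟨K', w₀, h1, h2⟩ := hv.split
    obtain ⟨T, hT, h3⟩ := ih h2
    refine univ_cpl_of hC hA hT (Or.inr (Or.inl ⟨(i : M), ?_, ?_, ?_⟩))
    · rw [Nat.cast_succ]
    · rw [h1, univ_p2_pair, univ_p1_pair]
    · rw [h1, univ_p2_pair]
      exact h3

theorem univ_cpl_const (hC : CodAPI M bd) (hA : Base A) {w : M} (x : M) :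
    univ_Cpl A m₀ j n c (pair (univ_tg 1) x) w x := by
  obtain ⟨T, hT⟩ := univ_empty hC hA (m₀ := m₀) (j := j) (n := n) (c := c)
  exact univ_cpl_of hC hA hT (Or.inr (Or.inr (Or.inl rfl)))

theorem univ_cpl_bin (hC : CodAPI M bd) (hA : Base A) {a b w y₁ y₂ k y : M}
    (h1 : univ_Cpl A m₀ j n c a w y₁) (h2 : univ_Cpl A m₀ j n c b w y₂)
    (ha : univ_p1 (univ_p2 k) = a) (hb : univ_p2 (univ_p2 k) = b)
    (h : (univ_p1 k = univ_tg 2 ∧ y = y₁ + y₂) ∨ (univ_p1 k = univ_tg 3 ∧ y = y₁ * y₂) ∨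
      (univ_p1 k = univ_tg 4 ∧ ((y₁ < y₂ ∧ y = 1) ∨ (¬ y₁ < y₂ ∧ y = 0)))) :
    univ_Cpl A m₀ j n c k w y := by
  obtain ⟨T₁, hT₁, h1⟩ := h1
  obtain ⟨T₂, hT₂, h2⟩ := h2
  obtain ⟨T, hT, h3, h4⟩ := univ_union2 hC hA hT₁ hT₂
  refine univ_cpl_of hC hA hT (Or.inr (Or.inr (Or.inr (Or.inl ⟨y₁, y₂, ?_, ?_, h⟩))))
  · rw [ha]
    exact h3 _ h1
  · rw [hb]
    exact h4 _ h2

theorem univ_cpl_add (hC : CodAPI M bd) (hA : Base A) {a b w y₁ y₂ : M}
    (h1 : univ_Cpl A m₀ j n c a w y₁) (h2 : univ_Cpl A m₀ j n c b w y₂) :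
    univ_Cpl A m₀ j n c (pair (univ_tg 2) (pair a b)) w (y₁ + y₂) :=
  univ_cpl_bin hC hA h1 h2 (by simp) (by simp) (Or.inl ⟨by simp, rfl⟩)

theorem univ_cpl_mul (hC : CodAPI M bd) (hA : Base A) {a b w y₁ y₂ : M}
    (h1 : univ_Cpl A m₀ j n c a w y₁) (h2 : univ_Cpl A m₀ j n c b w y₂) :
    univ_Cpl A m₀ j n c (pair (univ_tg 3) (pair a b)) w (y₁ * y₂) :=
  univ_cpl_bin hC hA h1 h2 (by simp) (by simp) (Or.inr (Or.inl ⟨by simp, rfl⟩))

theorem univ_cpl_lt (hC : CodAPI M bd) (hA : Base A) {a b w y₁ y₂ : M}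
    (h1 : univ_Cpl A m₀ j n c a w y₁) (h2 : univ_Cpl A m₀ j n c b w y₂) :
    univ_Cpl A m₀ j n c (pair (univ_tg 4) (pair a b)) w (univ_tv (y₁ < y₂)) := by
  refine univ_cpl_bin hC hA h1 h2 (by simp) (by simp) (Or.inr (Or.inr ⟨by simp, ?_⟩))
  by_cases h : y₁ < y₂
  · exact Or.inl ⟨h, univ_tv_true h⟩
  · exact Or.inr ⟨h, univ_tv_false h⟩

theorem univ_cpl_mem (hC : CodAPI M bd) (hA : Base A) {H : Set M}
    (hc : ∀ x, el x c ↔ x < n ∧ x ∈ H) {i : ℕ} (hi : i = j ∨ i < m₀) {b w z : M}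
    (hz : i = j → z < n) (h1 : univ_Cpl A m₀ j n c b w z) :
    univ_Cpl A m₀ j n c (pair (univ_tg 5) (pair (i : M) b)) w
      (univ_tv (z ∈ Function.update A j H i)) := by
  obtain ⟨T, hT, h1⟩ := h1
  refine univ_cpl_of hC hA hT (Or.inr (Or.inr (Or.inr (Or.inr (Or.inl ⟨by simp, z, ?_, ?_⟩)))))
  · simpa using h1
  · rw [univ_p2_pair, univ_p1_pair]
    by_cases hij : i = j
    · refine Or.inr ⟨by rw [hij], hz hij, ?_⟩
      rw [hij, Function.update_self]
      by_cases h : z ∈ H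
      · exact Or.inl ⟨univ_tv_true h, (hc z).mpr ⟨hz hij, h⟩⟩
      · exact Or.inr ⟨univ_tv_false h, fun h2 => h ((hc z).mp h2).2⟩
    · refine Or.inl ⟨i, hi.resolve_left hij, hij, rfl, ?_⟩
      rw [Function.update_of_ne hij]
      by_cases h : z ∈ A i
      · exact Or.inl ⟨univ_tv_true h, h⟩
      · exact Or.inr ⟨univ_tv_false h, h⟩

theorem univ_cpl_ball (hC : CodAPI M bd) (hA : Base A) {a b w z : M} {P : M → Prop}
    (h1 : univ_Cpl A m₀ j n c a w z)
    (h2 : ∀ x, x < z → univ_Cpl A m₀ j n c b (pair x w) (univ_tv (P x))) :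
    univ_Cpl A m₀ j n c (pair (univ_tg 6) (pair a b)) w (univ_tv (∀ x, x < z → P x)) := by
  obtain ⟨T₁, hT₁, h1⟩ := h1
  by_cases hP : ∀ x, x < z → P x
  · -- collection
    have hR : RecP A (fun g : M × M => univ_Loc A m₀ j g.2 n c ∧ univ_In g.2 b (pair g.1 w) 1) :=
      (univ_Loc_rec hC hA m₀ j PMap.id.snd.rec (Rec.const n) (Rec.const c)).and
        (univ_In_rec hC PMap.id.snd.rec (Rec.const b)
          ((PMap.id (M := M) (Γ := M × M)).fst.rec.pair (Rec.const w)) (Rec.const 1))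
    obtain ⟨B, hB⟩ := hA.coll _ hR.1 z (by
      intro x hx
      obtain ⟨T, hT, h3⟩ := h2 x hx
      rw [univ_tv_true (hP x hx)] at h3
      exact ⟨T, hT, h3⟩)
    obtain ⟨T₂, hT₂, h3⟩ := univ_union hC hA (m₀ := m₀) (j := j) (n := n) (c := c) B
    obtain ⟨T, hT, h4, h5⟩ := univ_union2 hC hA hT₁ hT₂
    rw [univ_tv_true hP]
    refine univ_cpl_of hC hA hT (Or.inr (Or.inr (Or.inr (Or.inr (Or.inr ⟨by simp, z, ?_, ?_⟩)))))
    · rw [univ_p2_pair, univ_p1_pair]
      exact h4 _ h1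
    · rw [univ_p2_pair, univ_p2_pair]
      refine Or.inl ⟨rfl, fun x hx => ?_⟩
      obtain ⟨T', hT', h6, h7⟩ := hB x hx
      exact h5 _ (h3 T' hT' h6 _ h7)
  · rw [univ_tv_false hP]
    push Not at hP
    obtain ⟨x, hx, hPx⟩ := hP
    obtain ⟨T₂, hT₂, h3⟩ := h2 x hx
    rw [univ_tv_false hPx] at h3
    obtain ⟨T, hT, h4, h5⟩ := univ_union2 hC hA hT₁ hT₂
    refine univ_cpl_of hC hA hT (Or.inr (Or.inr (Or.inr (Or.inr (Or.inr ⟨by simp, z, ?_, ?_⟩)))))
    · rw [univ_p2_pair, univ_p1_pair]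
      exact h4 _ h1
    · rw [univ_p2_pair, univ_p2_pair]
      exact Or.inr ⟨rfl, x, hx, h5 _ h3⟩

/-! ## Codes of terms and formulas -/

/-- Codes of terms. -/
def univ_ct : Tm M → M
  | .var i => pair (univ_tg 0) (i : M)
  | .const x => pair (univ_tg 1) x
  | .add s t => pair (univ_tg 2) (pair (univ_ct s) (univ_ct t))
  | .mul s t => pair (univ_tg 3) (pair (univ_ct s) (univ_ct t))

theorem univ_snd_tm {K : ℕ} {w : M} {v : ℕ → M} (hv : univ_Env K w v) (t : Tm M) :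
    univ_Snd A m₀ j n c (univ_ct t) w (t.eval v) := by
  induction t with
  | var i => exact univ_snd_var i hv
  | const x => exact univ_snd_const x
  | add s t hs ht => exact univ_snd_add hs ht
  | mul s t hs ht => exact univ_snd_mul hs ht

theorem univ_cpl_tm (hC : CodAPI M bd) (hA : Base A) {K : ℕ} {w : M} {v : ℕ → M}
    (hv : univ_Env K w v) (t : Tm M) : univ_Cpl A m₀ j n c (univ_ct t) w (t.eval v) := by
  induction t with
  | var i => exact univ_cpl_var hC hA i hv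
  | const x => exact univ_cpl_const hC hA x
  | add s t hs ht => exact univ_cpl_add hC hA hs ht
  | mul s t hs ht => exact univ_cpl_mul hC hA hs ht

/-- Code of the negation. -/
def univ_cneg (k : M) : M := pair (univ_tg 4) (pair k (pair (univ_tg 1) 1))

theorem univ_tv_not (p : Prop) : (univ_tv ((univ_tv p : M) < 1) : M) = univ_tv (¬ p) := by
  by_cases h : p
  · rw [univ_tv_true h, univ_tv_false (lt_irrefl _), univ_tv_false (not_not.mpr h)]
  · rw [univ_tv_false h, univ_tv_true PModel.zero_lt_one'', univ_tv_true h]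

theorem univ_tv_and (p q : Prop) : (univ_tv p * univ_tv q : M) = univ_tv (p ∧ q) := by
  by_cases hp : p
  · by_cases hq : q
    · rw [univ_tv_true hp, univ_tv_true hq, univ_tv_true ⟨hp, hq⟩, mul_one]
    · have h1 : ¬ (p ∧ q) := fun h => hq h.2
      rw [univ_tv_false hq, univ_tv_false h1, mul_zero]
  · have h1 : ¬ (p ∧ q) := fun h => hp h.1
    rw [univ_tv_false hp, univ_tv_false h1, zero_mul]

theorem univ_snd_neg {k w : M} {p : Prop} (h : univ_Snd A m₀ j n c k w (univ_tv p)) :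
    univ_Snd A m₀ j n c (univ_cneg k) w (univ_tv (¬ p)) := by
  rw [← univ_tv_not]
  exact univ_snd_lt h (univ_snd_const 1)

theorem univ_cpl_neg (hC : CodAPI M bd) (hA : Base A) {k w : M} {p : Prop}
    (h : univ_Cpl A m₀ j n c k w (univ_tv p)) :
    univ_Cpl A m₀ j n c (univ_cneg k) w (univ_tv (¬ p)) := by
  rw [← univ_tv_not]
  exact univ_cpl_lt hC hA h (univ_cpl_const hC hA 1)

theorem univ_snd_and {k l w : M} {p q : Prop} (h : univ_Snd A m₀ j n c k w (univ_tv p))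
    (h' : univ_Snd A m₀ j n c l w (univ_tv q)) :
    univ_Snd A m₀ j n c (pair (univ_tg 3) (pair k l)) w (univ_tv (p ∧ q)) := by
  rw [← univ_tv_and]
  exact univ_snd_mul h h'

theorem univ_cpl_and (hC : CodAPI M bd) (hA : Base A) {k l w : M} {p q : Prop}
    (h : univ_Cpl A m₀ j n c k w (univ_tv p)) (h' : univ_Cpl A m₀ j n c l w (univ_tv q)) :
    univ_Cpl A m₀ j n c (pair (univ_tg 3) (pair k l)) w (univ_tv (p ∧ q)) := by
  rw [← univ_tv_and]
  exact univ_cpl_mul hC hA h h'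

theorem univ_eq_iff (x y : M) : (x = y) = (¬ x < y ∧ ¬ y < x) := by
  refine propext ⟨?_, ?_⟩
  · rintro rfl
    exact ⟨lt_irrefl _, lt_irrefl _⟩
  · rintro ⟨h1, h2⟩
    exact le_antisymm (not_lt.mp h2) (not_lt.mp h1)

/-- Codes of formulas. -/
def univ_cf (m₀ j : ℕ) : Fm M → M
  | .eq s t => pair (univ_tg 3) (pair
      (univ_cneg (pair (univ_tg 4) (pair (univ_ct s) (univ_ct t))))
      (univ_cneg (pair (univ_tg 4) (pair (univ_ct t) (univ_ct s)))))
  | .lt s t => pair (univ_tg 4) (pair (univ_ct s) (univ_ct t))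
  | .mem i t => if i = j ∨ i < m₀ then pair (univ_tg 5) (pair (i : M) (univ_ct t))
      else pair (univ_tg 1) 0
  | .neg φ => univ_cneg (univ_cf m₀ j φ)
  | .and φ ψ => pair (univ_tg 3) (pair (univ_cf m₀ j φ) (univ_cf m₀ j ψ))
  | .ball t φ => pair (univ_tg 6) (pair (univ_ct t) (univ_cf m₀ j φ))

/-- A bound for the queries to the oracle number `j`. -/
def univ_qb : Fm M → (ℕ → M) → M
  | .eq _ _, _ => 0
  | .lt _ _, _ => 0
  | .mem _ t, v => t.eval v + 1
  | .neg φ, v => univ_qb φ v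
  | .and φ ψ, v => univ_qb φ v + univ_qb ψ v
  | .ball t φ, v => univ_qb φ (cons (t.eval v) v)

theorem univ_tm_mono (t : Tm M) {v v' : ℕ → M} (h : ∀ i, v i ≤ v' i) : t.eval v ≤ t.eval v' := by
  induction t with
  | var i => exact h i
  | const x => exact le_rfl
  | add s t hs ht => exact add_le_add hs ht
  | mul s t hs ht => exact mul_le_mul' hs ht

theorem univ_cons_mono {x x' : M} {v v' : ℕ → M} (hx : x ≤ x') (h : ∀ i, v i ≤ v' i) :
    ∀ i, cons x v i ≤ cons x' v' i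
  | 0 => hx
  | i + 1 => h i

theorem univ_qb_mono (φ : Fm M) : ∀ {v v' : ℕ → M}, (∀ i, v i ≤ v' i) →
    univ_qb φ v ≤ univ_qb φ v' := by
  induction φ with
  | eq s t => intro v v' _; exact le_rfl
  | lt s t => intro v v' _; exact le_rfl
  | mem i t =>
    intro v v' h
    exact add_le_add (univ_tm_mono t h) le_rfl
  | neg φ ih => intro v v' h; exact ih h
  | and φ ψ ih1 ih2 => intro v v' h; exact add_le_add (ih1 h) (ih2 h)
  | ball t φ ih => intro v v' h; exact ih (univ_cons_mono (univ_tm_mono t h) h)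

theorem univ_snd_fm {H : Set M} (hc : ∀ x, el x c ↔ x < n ∧ x ∈ H)
    (hm : ∀ m, m₀ ≤ m → A m = ∅) (φ : Fm M) : ∀ {K : ℕ} {w : M} {v : ℕ → M}, univ_Env K w v →
    univ_Snd A m₀ j n c (univ_cf m₀ j φ) w (univ_tv (φ.eval (Function.update A j H) v)) := by
  induction φ with
  | eq s t =>
    intro K w v hv
    have h1 := univ_snd_tm (A := A) (m₀ := m₀) (j := j) (n := n) (c := c) hv s
    have h2 := univ_snd_tm (A := A) (m₀ := m₀) (j := j) (n := n) (c := c) hv t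
    change univ_Snd A m₀ j n c _ w (univ_tv (s.eval v = t.eval v))
    rw [univ_eq_iff]
    exact univ_snd_and (univ_snd_neg (univ_snd_lt h1 h2)) (univ_snd_neg (univ_snd_lt h2 h1))
  | lt s t =>
    intro K w v hv
    exact univ_snd_lt (univ_snd_tm hv s) (univ_snd_tm hv t)
  | mem i t =>
    intro K w v hv
    by_cases hi : i = j ∨ i < m₀
    · rw [univ_cf, if_pos hi]
      exact univ_snd_mem hc (univ_snd_tm hv t)
    · rw [univ_cf, if_neg hi]
      push Not at hi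
      have h1 : ¬ (Fm.mem i t).eval (Function.update A j H) v := by
        change ¬ t.eval v ∈ Function.update A j H i
        rw [Function.update_of_ne hi.1, hm i hi.2]
        exact fun h => h
      rw [univ_tv_false h1]
      exact univ_snd_const 0
  | neg φ ih =>
    intro K w v hv
    exact univ_snd_neg (ih hv)
  | and φ ψ ih1 ih2 =>
    intro K w v hv
    exact univ_snd_and (ih1 hv) (ih2 hv)
  | ball t φ ih =>
    intro K w v hv
    exact univ_snd_ball (P := fun x => φ.eval (Function.update A j H) (cons x v))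
      (univ_snd_tm hv t) fun x _ => ih (hv.cons x)

theorem univ_cpl_fm (hC : CodAPI M bd) (hA : Base A) {H : Set M}
    (hc : ∀ x, el x c ↔ x < n ∧ x ∈ H)
    (hm : ∀ m, m₀ ≤ m → A m = ∅) (φ : Fm M) : ∀ {K : ℕ} {w : M} {v : ℕ → M}, univ_Env K w v →
    univ_qb φ v ≤ n →
    univ_Cpl A m₀ j n c (univ_cf m₀ j φ) w (univ_tv (φ.eval (Function.update A j H) v)) := by
  induction φ with
  | eq s t =>
    intro K w v hv _
    have h1 := univ_cpl_tm (m₀ := m₀) (j := j) (n := n) (c := c) hC hA hv s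
    have h2 := univ_cpl_tm (m₀ := m₀) (j := j) (n := n) (c := c) hC hA hv t
    change univ_Cpl A m₀ j n c _ w (univ_tv (s.eval v = t.eval v))
    rw [univ_eq_iff]
    exact univ_cpl_and hC hA (univ_cpl_neg hC hA (univ_cpl_lt hC hA h1 h2))
      (univ_cpl_neg hC hA (univ_cpl_lt hC hA h2 h1))
  | lt s t =>
    intro K w v hv _
    exact univ_cpl_lt hC hA (univ_cpl_tm hC hA hv s) (univ_cpl_tm hC hA hv t)
  | mem i t =>
    intro K w v hv hn
    by_cases hi : i = j ∨ i < m₀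
    · rw [univ_cf, if_pos hi]
      exact univ_cpl_mem hC hA hc hi (fun _ => (lt_add_one' _).trans_le hn)
        (univ_cpl_tm hC hA hv t)
    · rw [univ_cf, if_neg hi]
      push Not at hi
      have h1 : ¬ (Fm.mem i t).eval (Function.update A j H) v := by
        change ¬ t.eval v ∈ Function.update A j H i
        rw [Function.update_of_ne hi.1, hm i hi.2]
        exact fun h => h
      rw [univ_tv_false h1]
      exact univ_cpl_const hC hA 0
  | neg φ ih =>
    intro K w v hv hn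
    exact univ_cpl_neg hC hA (ih hv hn)
  | and φ ψ ih1 ih2 =>
    intro K w v hv hn
    exact univ_cpl_and hC hA (ih1 hv (le_self_add.trans hn)) (ih2 hv (le_add_self.trans hn))
  | ball t φ ih =>
    intro K w v hv hn
    refine univ_cpl_ball (P := fun x => φ.eval (Function.update A j H) (cons x v)) hC hA
      (univ_cpl_tm hC hA hv t) fun x hx => ih (hv.cons x) ?_
    exact (univ_qb_mono φ (univ_cons_mono hx.le fun _ => le_rfl)).trans hn

/-! ## Environments -/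

/-- Code of the environment `v` with `v i = 0` for `i ≥ K`. -/
def univ_wenv : ℕ → (ℕ → M) → M
  | 0, _ => 0
  | K + 1, v => pair (v 0) (univ_wenv K (fun i => v (i + 1)))

theorem univ_wenv_spec (K : ℕ) : ∀ v : ℕ → M, (∀ i, K ≤ i → v i = 0) →
    univ_Env K (univ_wenv K v) v := by
  induction K with
  | zero => intro v hv; exact ⟨rfl, fun i => hv i (Nat.zero_le _)⟩
  | succ K ih =>
    intro v hv
    exact ⟨_, rfl, ih _ fun i hi => hv (i + 1) (Nat.succ_le_succ hi)⟩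

theorem univ_wenv_rec (K : ℕ) : ∀ V : ℕ → Γ → M, (∀ i, Poly (V i)) →
    Poly (fun g => univ_wenv K (fun i => V i g)) := by
  induction K with
  | zero => intro V _; exact Poly.const 0
  | succ K ih =>
    intro V hV
    exact (hV 0).pair (ih (fun i => V (i + 1)) fun i => hV (i + 1))

theorem univ_env_poly (i : ℕ) : Poly (fun g : Γ => (env g i : M)) := ⟨.var i, fun _ => rfl⟩

end

/-! ## The universal relation -/

/-- The universal relation. -/
def univ_Phi (A : ℕ → Set M) (m₀ j : ℕ) (z : (M × M) × M) : Prop :=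
  ∃ T, T < z.1.2 ∧ (univ_Loc A m₀ j T z.1.2 z.2 ∧
    ∃ x, x < z.1.2 ∧ univ_In T (univ_p1 z.1.1) (pair x (univ_p2 z.1.1)) 1)

theorem univ_Phi_rec {bd : M → M} (hC : CodAPI M bd) (hA : Base A) (m₀ j : ℕ) :
    RecP A (univ_Phi A m₀ j) := by
  have ln : Rec A (fun g : ((M × M) × M) × M => g.1.1.2) := PMap.id.fst.fst.snd.rec
  have lc : Rec A (fun g : ((M × M) × M) × M => g.1.2) := PMap.id.fst.snd.rec
  have lT : Rec A (fun g : ((M × M) × M) × M => g.2) := PMap.id.snd.rec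
  have lT' : Rec A (fun g : (((M × M) × M) × M) × M => g.1.2) := PMap.id.fst.snd.rec
  have le' : Rec A (fun g : (((M × M) × M) × M) × M => g.1.1.1.1) := PMap.id.fst.fst.fst.fst.rec
  have lx : Rec A (fun g : (((M × M) × M) × M) × M => g.2) := PMap.id.snd.rec
  refine RecP.bex hA.coll (t := fun z : (M × M) × M => z.1.2) PMap.id.fst.snd.rec
    (R := fun (z : (M × M) × M) T => univ_Loc A m₀ j T z.1.2 z.2 ∧
      ∃ x, x < z.1.2 ∧ univ_In T (univ_p1 z.1.1) (pair x (univ_p2 z.1.1)) 1) ?_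
  refine (univ_Loc_rec hC hA m₀ j lT ln lc).and ?_
  refine RecP.bex hA.coll ln (R := fun (g : ((M × M) × M) × M) x =>
    univ_In g.2 (univ_p1 g.1.1.1) (pair x (univ_p2 g.1.1.1)) 1) ?_
  exact univ_In_rec hC lT' ((univ_p1_rec hA).comp le') (lx.pair ((univ_p2_rec hA).comp le'))
    (Rec.const 1)

theorem st_UNIV : ST_UNIV.{u} := by
  intro M _ bd hC A hN hm₀ j hj
  obtain ⟨m₀, hm⟩ := hm₀
  have hA := hN.base
  refine ⟨univ_Phi A m₀ j, univ_Phi_rec hC hA m₀ j, ?_, ?_⟩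
  · rintro e n c c' hcc ⟨T, hT, hL, x, hx, hI⟩
    exact ⟨T, hT, hL.mono le_rfl hcc, x, hx, hI⟩
  · intro φ Γ _
    refine ⟨fun g => pair (univ_cf m₀ j φ) (univ_wenv (Ctx.n M Γ) (env g)), ?_, ?_⟩
    · exact (Rec.const _).pair
        (univ_wenv_rec (Ctx.n M Γ) (fun i g => (env g i : M)) univ_env_poly).rec
    · intro H hH g
      have hw : univ_Env (Ctx.n M Γ) (univ_wenv (Ctx.n M Γ) (env g)) (env g : ℕ → M) := by
        refine univ_wenv_spec _ _ fun i hi => ?_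
        unfold env
        rw [if_neg (not_lt.mpr hi)]
      constructor
      · rintro ⟨x, hx⟩
        obtain ⟨c₀, hc₀⟩ := hH (univ_qb φ (cons x (env g)))
        obtain ⟨T, hT, h1⟩ := univ_cpl_fm (j := j) hC hA hc₀ hm φ (hw.cons x) le_rfl
        rw [univ_tv_true hx] at h1
        obtain ⟨c, hc⟩ := hH (univ_qb φ (cons x (env g)) + T + x + 1)
        refine ⟨_, c, hc, T, ?_, ?_, x, ?_, ?_⟩
        · exact lt_add_one_iff'.mpr (le_add_self.trans le_self_add)
        · refine hT.mono ?_ ?_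
          · exact le_self_add.trans (le_self_add.trans le_self_add)
          · intro z hz
            rw [hc₀, hc]
            constructor
            · rintro ⟨-, h⟩
              exact ⟨hz.trans_le (le_self_add.trans (le_self_add.trans le_self_add)), h⟩
            · rintro ⟨-, h⟩
              exact ⟨hz, h⟩
        · exact lt_add_one_iff'.mpr le_add_self
        · simpa only [univ_p1_pair, univ_p2_pair] using h1
      · rintro ⟨n, c, hc, T, hT, hL, x, hx, hI⟩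
        simp only [univ_p1_pair, univ_p2_pair] at hI
        exact ⟨x, univ_tv_one.mp (univ_snd_fm hc hm φ (hw.cons x) T hL _ hI).symm⟩

end Pool.Agent.Helper70.BRT
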